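import Pool.Agent.H15.G.R_seed8.TH641.NW.End2
import Pool.Agent.H15.G.R_seed8.TH885.NW.Final

/-! Two consecutive multiplicities at every number `n ≥ 10` of general points: the expected
dimension in all degrees but one. -/

namespace Pool.Agent.TH434.NW

open Finset Pool.Agent.TH176.Nag Pool.Agent.TH603.Sur Pool.Agent.TH603.Cut Pool.Agent.H932R3
  Pool.Agent.TH641.NW

/-- emptiness for multiplicities `≥ m` which are not small -/
theorem Emp_near {ι : Type} [Fintype ι] {w : ι → ℕ} {n m : ℕ} (hn : 10 ≤ n)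
    (hcard : Fintype.card ι = n) (hmw : ∀ i, m ≤ w i) (hm1 : 1 ≤ m)
    (hm : (n : ℝ) / 2 - 11 / 6 * √(n : ℝ) + 1 ≤ m) {d : ℕ}
    (h1 : √(n : ℝ) * (d + 11 / 6) + 9 / 8 < ((∑ i, w i : ℕ) : ℝ) + n / 2) :
    Emp w (TZ d) := by
  rcases lt_or_ge (√(n : ℝ) * d) ((∑ i, w i : ℕ) : ℝ) with hlt | hge
  · refine Pool.Agent.TH603.EL.Emp_plane (ι := ι) ?_ ?_
    · rw [hcard]; omega
    · rw [hcard]
      push_cast at hlt
      exact hlt
  have hnR : (10 : ℝ) ≤ n := by exact_mod_cast hn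
  obtain ⟨s, hsdef⟩ : ∃ s, s = √(n : ℝ) := ⟨_, rfl⟩
  obtain ⟨W, hW⟩ : ∃ W : ℝ, W = ((∑ i, w i : ℕ) : ℝ) := ⟨_, rfl⟩
  have hs : s * s = n := by rw [hsdef]; exact Real.mul_self_sqrt (by linarith)
  have hs3 : 3 ≤ s := by rw [hsdef]; exact Real.le_sqrt_of_sq_le (by norm_num; linarith)
  have hs0 : 0 < s := by linarith
  rw [← hsdef, ← hW] at h1 hge
  rw [← hsdef] at hm
  have hWm : (n : ℝ) * m ≤ W := by
    rw [hW, ← hcard]
    have h2 : Fintype.card ι * m ≤ ∑ i, w i := by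
      have : Fintype.card ι * m = ∑ _i : ι, m := by simp
      rw [this]
      exact sum_le_sum fun i _ => hmw i
    exact_mod_cast h2
  obtain ⟨J, hJ⟩ : ∃ J : ℕ, J = ⌊(d : ℝ) / s⌋₊ := ⟨_, rfl⟩
  have hJ1 : s * J ≤ d := by
    have := Nat.floor_le (show 0 ≤ (d : ℝ) / s by positivity)
    rw [← hJ, le_div_iff₀ hs0] at this
    linarith
  have hJ2 : (d : ℝ) < s * (J + 1) := by
    have := Nat.lt_floor_add_one ((d : ℝ) / s)
    rw [← hJ, div_lt_iff₀ hs0] at this
    linarith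
  have hJm : (m : ℝ) ≤ J := by
    have h2 : (m : ℝ) ≤ (d : ℝ) / s := by
      rw [le_div_iff₀ hs0]
      have h3 : s * (s * m) ≤ s * d := by rw [← mul_assoc, hs]; linarith
      have := le_of_mul_le_mul_left h3 hs0
      linarith
    have h4 : m ≤ ⌊(d : ℝ) / s⌋₊ := Nat.le_floor h2
    rw [← hJ] at h4
    exact_mod_cast h4
  have hm1R : (1 : ℝ) ≤ m := by exact_mod_cast hm1
  refine Emp_win_core2 keyE hn hcard (J := J) ?_ ?_ ?_ ?_
  · rw [← hsdef, ← hW]; linarith
  · rw [← hsdef]; exact hJ1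
  · rw [← hsdef]; exact hJ2
  · rw [← hsdef, ← hW]
    obtain ⟨x, hx⟩ : ∃ x : ℝ, x = d - s * J := ⟨_, rfl⟩
    have hx0 : 0 ≤ x := by rw [hx]; linarith
    have hxs : x < s := by rw [hx]; linarith
    have e0 : 3 * (d : ℝ) - 3 * s * J = 3 * x := by rw [hx]; ring
    rw [e0]
    have e1 : s * d = n * J + s * x := by rw [hx, ← hs]; ring
    -- the convex function
    have hg : (s - x) * ((s - x) / 2 - 11 / 6) + 1 ≤ J := by
      have hz0 : 0 < s - x := by linarith
      have h2 : (s - x) * ((s - x) / 2 - 11 / 6) ≤ (s - x) * (s / 2 - 11 / 6) :=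
        mul_le_mul_of_nonneg_left (by linarith) hz0.le
      rcases le_total (s / 2) (11 / 6) with h3 | h3
      · have : (s - x) * (s / 2 - 11 / 6) ≤ 0 :=
          mul_nonpos_of_nonneg_of_nonpos hz0.le (by linarith)
        linarith
      · have h4 : (s - x) * (s / 2 - 11 / 6) ≤ s * (s / 2 - 11 / 6) :=
          mul_le_mul_of_nonneg_right (by linarith) (by linarith)
        have h5 : s * (s / 2 - 11 / 6) = (n : ℝ) / 2 - 11 / 6 * s := by rw [← hs]; ring
        linarith
    have e2 : (s - x) * ((s - x) / 2 - 11 / 6) =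
        n / 2 - s * x + x ^ 2 / 2 - 11 / 6 * s + 11 / 6 * x := by
      rw [← hs]; ring
    rw [e2] at hg
    nlinarith

/-- **The expected dimension at `n ≥ 10` general points of multiplicities `m` and `m + 1`**, in all
degrees outside an explicit window of length less than two (in the variable `2 d + 3`). -/
theorem near_win {n m : ℕ} (hn : 10 ≤ n) (hm : 1 ≤ m) {w : Fin n → ℕ}
    (hw : ∀ i, w i = m ∨ w i = m + 1) {L : Type} [Field L] [CharZero L] :
    ∃ F : MvPolynomial (Fin n × Fin 2) ℚ, F ≠ 0 ∧ ∀ (P : Fin n → Fin 2 → L),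
      MvPolynomial.aeval (fun ij : Fin n × Fin 2 => P ij.1 ij.2) F ≠ 0 →
      ∀ d : ℕ, (min (√(n : ℝ) - 3) (2 / 3 + 9 / (4 * √(n : ℝ))) <
            √(n : ℝ) + 2 * (∑ i, (w i : ℝ)) / √(n : ℝ) - (2 * d + 3) ∨
          min (√(n : ℝ) - 3) (2 / 3 + 1 / (4 * √(n : ℝ))) <
            (2 * d + 3) - (√(n : ℝ) + 2 * (∑ i, (w i : ℝ)) / √(n : ℝ))) →
        ExpDim L w P d := by
  have hnR : (10 : ℝ) ≤ n := by exact_mod_cast hn
  have hs1 : 1 ≤ √(n : ℝ) := Real.one_le_sqrt.2 (by linarith)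
  have hs0 : 0 < √(n : ℝ) := by linarith
  have hss : √(n : ℝ) * √(n : ℝ) = n := Real.mul_self_sqrt (by linarith)
  rcases le_or_gt (((m + 1 : ℕ) : ℝ)) ((n : ℝ) - 6 * √(n : ℝ) + 11) with hsm | hlg
  · obtain ⟨F, hF, hF'⟩ := near_points (L := L) (n := n) (m := m) hn hm hw
      (near_cond (by omega) hw (Or.inl hsm))
    exact ⟨F, hF, fun P hP d _ => hF' P hP d⟩
  · have hmR : (n : ℝ) - 6 * √(n : ℝ) + 10 ≤ m := by push_cast at hlg; linarith
    obtain ⟨s, hsdef⟩ : ∃ s, s = √(n : ℝ) := ⟨_, rfl⟩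
    obtain ⟨W, hWdef⟩ : ∃ W : ℝ, W = ∑ i, (w i : ℝ) := ⟨_, rfl⟩
    have hWn : ((∑ i, w i : ℕ) : ℝ) = W := by rw [hWdef]; push_cast; rfl
    have hmax : ((∑ i, max (w i) m : ℕ) : ℝ) = W := by
      rw [← hWn]
      congr 1
      refine sum_congr rfl fun i _ => ?_
      rcases hw i with h | h <;> omega
    have hW0 : 0 ≤ W := by rw [hWdef]; exact sum_nonneg fun i _ => Nat.cast_nonneg _
    have key : ∀ a : ℝ, s * (2 / 3 + a / (4 * s)) = 2 / 3 * s + a / 4 := by
      intro a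
      rw [← hsdef] at hs0
      field_simp
    have hdiv : s * (2 * W / s) = 2 * W := by
      rw [← hsdef] at hs0
      field_simp
    rw [← hsdef, ← hWdef]
    rw [← hsdef] at hs0 hss hmR hs1
    refine (fun H => ?_ : (∃ F : MvPolynomial (Fin n × Fin 2) ℚ, F ≠ 0 ∧
      ∀ {L : Type} [Field L] [CharZero L] (P : Fin n → Fin 2 → L),
        MvPolynomial.aeval (fun ij : Fin n × Fin 2 => P ij.1 ij.2) F ≠ 0 →
        ∀ d : ℕ, ((min (s - 3) (2 / 3 + 9 / (4 * s)) < s + 2 * W / s - (2 * d + 3)) ∨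
          min (s - 3) (2 / 3 + 1 / (4 * s)) < (2 * d + 3) - (s + 2 * W / s)) →
        ExpDim L w P d) → _) (expDim_two (N := ∑ i, w i + n)
          (fun d hd => ?_) (fun d hd => ?_) (fun d hd => ?_))
    · obtain ⟨F, hF, hF'⟩ := H
      exact ⟨F, hF, fun P hP d hd => hF' P hP d hd⟩
    · -- the bound
      have h1 : 0 ≤ min (s - 3) (2 / 3 + 9 / (4 * s)) := by
        refine le_min ?_ (by positivity)
        have : 3 ≤ s := by rw [hsdef]; exact Real.le_sqrt_of_sq_le (by linarith)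
        linarith
      have h2 : s ≤ n := by nlinarith
      have h4 : 2 * W / s ≤ 2 * W := div_le_self (by linarith) hs1
      have h3 : (d : ℝ) ≤ ((∑ i, w i + n : ℕ) : ℝ) := by
        rw [Nat.cast_add, hWn]
        linarith
      exact_mod_cast h3
    · rcases min_lt_iff.1 hd with h1 | h1
      · refine Pool.Agent.TH603.EL.Emp_plane (by rw [Fintype.card_fin]; omega) ?_
        rw [Fintype.card_fin, ← hsdef, ← hWdef]
        have h3 := mul_lt_mul_of_pos_left h1 hs0
        have e : s * (s + 2 * W / s - (2 * d + 3)) = s * s + s * (2 * W / s) - s * (2 * d + 3) := by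
          ring
        rw [e, hdiv] at h3
        nlinarith
      · refine Emp_near hn (Fintype.card_fin n) (m := m) (fun i => by rcases hw i with h | h <;> omega)
          hm ?_ ?_
        · rw [← hsdef]
          refine le_trans ?_ hmR
          have h3 : 0 ≤ (s - 25 / 6) ^ 2 := sq_nonneg _
          have e1 : (s - 25 / 6) ^ 2 = n - 25 / 3 * s + 625 / 36 := by rw [← hss]; ring
          rw [e1] at h3
          linarith
        · rw [← hsdef, hWn]
          have h3 := mul_lt_mul_of_pos_left h1 hs0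
          have e : s * (s + 2 * W / s - (2 * d + 3)) =
              s * s + s * (2 * W / s) - s * (2 * d + 3) := by ring
          rw [e, hdiv, key, hss] at h3
          linarith
    · rcases min_lt_iff.1 hd with h1 | h1
      · refine Pool.Agent.TH387.SH.Sur_plane (b := m) (by rw [Fintype.card_fin]; exact hn)
          (fun i => by rcases hw i with h | h <;> omega) ?_
        rw [Fintype.card_fin, ← hsdef, hmax]
        have h3 := mul_lt_mul_of_pos_left h1 hs0
        have e : s * ((2 * d + 3) - (s + 2 * W / s)) =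
            s * (2 * d + 3) - (s * s + s * (2 * W / s)) := by ring
        rw [e, hdiv] at h3
        nlinarith
      · refine Sur_win2 (b := m) keyS hn (Fintype.card_fin n)
          (fun i => by rcases hw i with h | h <;> omega) ?_
        rw [← hsdef, hmax]
        have h3 := mul_lt_mul_of_pos_left h1 hs0
        have e : s * ((2 * d + 3) - (s + 2 * W / s)) =
            s * (2 * d + 3) - (s * s + s * (2 * W / s)) := by ring
        rw [e, hdiv, key, hss] at h3
        linarith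

/-- the only degree which may be undecided -/
noncomputable def ncrit (n : ℕ) (W : ℝ) : ℕ :=
  ⌊(√(n : ℝ) + 2 * W / √(n : ℝ) - 3 + min (√(n : ℝ) - 3) (2 / 3 + 1 / (4 * √(n : ℝ)))) / 2⌋₊

/-- **All degrees but one**: at `n ≥ 10` general points of multiplicities `m` and `m + 1`, `m ≥ 1`,
the expected dimension holds in every degree different from `ncrit n (∑ w i)`. -/
theorem near_all_but_one {n m : ℕ} (hn : 10 ≤ n) (hm : 1 ≤ m) {w : Fin n → ℕ}
    (hw : ∀ i, w i = m ∨ w i = m + 1) {L : Type} [Field L] [CharZero L] :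
    ∃ F : MvPolynomial (Fin n × Fin 2) ℚ, F ≠ 0 ∧ ∀ (P : Fin n → Fin 2 → L),
      MvPolynomial.aeval (fun ij : Fin n × Fin 2 => P ij.1 ij.2) F ≠ 0 →
      ∀ d : ℕ, d ≠ ncrit n (∑ i, (w i : ℝ)) → ExpDim L w P d := by
  obtain ⟨F, hF, hF'⟩ := near_win (L := L) hn hm hw
  refine ⟨F, hF, fun P hP d hd => hF' P hP d ?_⟩
  have h1 := window_lt hn
  have h2 : 0 ≤ (√(n : ℝ) + 2 * (∑ i, (w i : ℝ)) / √(n : ℝ) - 3 +
      min (√(n : ℝ) - 3) (2 / 3 + 1 / (4 * √(n : ℝ)))) / 2 := by
    have hnR : (10 : ℝ) ≤ n := by exact_mod_cast hn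
    have h3 : 3 ≤ √(n : ℝ) := Real.le_sqrt_of_sq_le (by linarith)
    have h4 : 0 ≤ min (√(n : ℝ) - 3) (2 / 3 + 1 / (4 * √(n : ℝ))) := by
      refine le_min (by linarith) (by positivity)
    have h5 : (0 : ℝ) ≤ ∑ i, (w i : ℝ) := sum_nonneg fun i _ => Nat.cast_nonneg _
    have h6 : 0 ≤ 2 * (∑ i, (w i : ℝ)) / √(n : ℝ) := by positivity
    linarith
  rcases lt_or_gt_of_ne hd with hlt | hgt
  · left
    have h3 := Nat.floor_le h2
    have h4 : (d : ℝ) + 1 ≤ (ncrit n (∑ i, (w i : ℝ)) : ℝ) := by exact_mod_cast hlt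
    unfold ncrit at h4
    linarith
  · right
    have h3 := Nat.lt_of_floor_lt hgt
    linarith

end Pool.Agent.TH434.NW
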